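import Pool.Agent.LPW.StmtsE

/-!
# Squad LPW, row BX2: the family of products
-/

set_option autoImplicit false

open Polynomial NumberField
open Pool.Agent.Helper85_Leo (LeopoldtAt)
open Pool.Agent.Helper65_Dens (Par gpoly Ix degs prodPoly ixMap Sep prodPoly_monic)

namespace Pool.Agent.LPW.H76

theorem cst_injective {r₁ r₂ : ℕ} : Function.Injective (cst (r₁ := r₁) (r₂ := r₂)) := by
  rintro (x | x) (y | y) h
  · simpa [cst] using h
  · simp [cst] at h
  · simp [cst] at h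
  · simpa [cst] using h

/-- A vector with a bad field gives an exceptional point. -/
theorem exc_of_bad {r₁ r₂ : ℕ} (h3 : 3 ≤ r₁ + r₂) (p : ℕ) [Fact p.Prime] (a : Ix r₁ r₂ → ℤ)
    (hs : Sep a)
    (hbad : ¬ ∀ (K : Type) [Field K] [NumberField K] (θ : K),
      IntermediateField.adjoin ℚ {θ} = ⊤ → aeval θ (prodPoly a - 1) = 0 → LeopoldtAt K p)
    {r : ℕ} (hr : r + 1 = r₁ + r₂) (hprod : ∏ j, fac a j = prodPoly a)
    (e : Fin r → Fin r₁ ⊕ Fin r₂) :
    ExcPt p (r₁ + 2 * r₂) (prodPoly a - 1) (fun l => fac a (e l)) := by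
  classical
  by_contra hcon
  apply hbad
  intro K _ _ θ hgen hroot
  by_contra hL
  apply hcon
  have hpos : 0 < r₁ + 2 * r₂ := by omega
  obtain ⟨s1, s2, s3, s4⟩ := hs.signature hpos K θ hgen hroot
  have hirr := hs.irreducible hpos
  have hmon : (prodPoly a - 1).Monic := by
    refine (prodPoly_monic a).sub_of_left ?_
    by_contra hd
    rw [not_lt, degree_one, degree_eq_natDegree (prodPoly_monic a).ne_zero] at hd
    have hd' : (prodPoly a).natDegree ≤ 0 := by exact_mod_cast hd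
    have h1 : prodPoly a = 1 := (prodPoly_monic a).natDegree_eq_zero.1 (Nat.le_zero.1 hd')
    apply hirr.ne_zero
    rw [h1, sub_self, Polynomial.map_zero]
  have hint : IsIntegral ℤ θ := ⟨prodPoly a - 1, hmon, by
    rw [← aeval_def]
    exact hroot⟩
  obtain ⟨θ', hθ'⟩ : ∃ θ' : 𝓞 K, (θ' : K) = θ := ⟨⟨θ, hint⟩, rfl⟩
  have hroot' : aeval θ' (prodPoly a - 1) = 0 := by
    apply RingOfIntegers.coe_injective
    have h1 : aeval (algebraMap (𝓞 K) K θ') (prodPoly a - 1) =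
        algebraMap (𝓞 K) K (aeval θ' (prodPoly a - 1)) := aeval_algebraMap_apply K θ' _
    have h2 : algebraMap (𝓞 K) K θ' = θ := hθ'
    rw [h2, hroot] at h1
    rw [map_zero]
    exact h1.symm
  have hone : ∏ j, aeval θ' (fac a j) = 1 := by
    rw [← map_prod, hprod]
    rw [map_sub, map_one, sub_eq_zero] at hroot'
    exact hroot'
  refine ⟨K, inferInstance, inferInstance, θ', hroot', ?_, s1, fun l => ?_, by omega, hL⟩
  · rw [hθ']
    exact hgen
  · apply isUnit_of_dvd_one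
    rw [← hone]
    exact Finset.dvd_prod_of_mem _ (Finset.mem_univ _)

/-- The box is finite. -/
theorem box_finite (l : Fin 2 → ℤ) (M : ℕ) :
    {P : Fin 2 → ℤ | ∀ i, l i ≤ P i ∧ P i < l i + M}.Finite := by
  refine (Set.finite_Icc l fun i => l i + M).subset ?_
  intro P hP
  exact ⟨fun i => (hP i).1, fun i => (hP i).2.le⟩

theorem bx2 : Bx2Stmt := by
  classical
  intro hspg hfrl hupw hslc r₁ r₂ h3 p _ ε hε
  obtain ⟨i⟩ : Nonempty (Fin 2 ↪ Fin r₁ ⊕ Fin r₂) := by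
    apply Function.Embedding.nonempty_of_card_le
    rw [Fintype.card_sum, Fintype.card_fin, Fintype.card_fin, Fintype.card_fin]
    omega
  have hi : Function.Injective i := i.injective
  obtain ⟨r, hr⟩ : ∃ r, r + 1 = r₁ + r₂ := ⟨r₁ + r₂ - 1, by omega⟩
  have hcard : Fintype.card {j : Fin r₁ ⊕ Fin r₂ // j ≠ i 1} = r := by
    rw [Fintype.card_subtype, Finset.filter_ne', Finset.card_erase_of_mem (Finset.mem_univ _),
      Finset.card_univ, Fintype.card_sum, Fintype.card_fin, Fintype.card_fin]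
    omega
  obtain ⟨e', -⟩ : ∃ e' : {j : Fin r₁ ⊕ Fin r₂ // j ≠ i 1} ≃ Fin r, e' = e' :=
    ⟨Fintype.equivFinOfCardEq hcard, rfl⟩
  obtain ⟨e, he⟩ : ∃ e : Fin r → Fin r₁ ⊕ Fin r₂, e = fun l => (e'.symm l).1 := ⟨_, rfl⟩
  have heinj : Function.Injective e := by
    intro x y hxy
    rw [he] at hxy
    exact e'.symm.injective (Subtype.ext hxy)
  have herange : ∀ j, (∃ l, e l = j) ↔ j ≠ i 1 := by
    intro j
    constructor
    · rintro ⟨l, rfl⟩
      rw [he]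
      exact (e'.symm l).2
    · intro hj
      refine ⟨e' ⟨j, hj⟩, ?_⟩
      rw [he]
      simp
  obtain ⟨B, hB⟩ := hupw p (r₁ + 2 * r₂) r (r₁ + 2 * r₂) ε hε
  refine ⟨4 * |B|, ?_⟩
  intro lo N M hM hN
  have hMpos : (0 : ℝ) < M := by exact_mod_cast hM
  obtain ⟨S, hS⟩ : ∃ S : Set (Ix r₁ r₂ → ℤ), S = {a | Sep a ∧
    ¬ ∀ (K : Type) [Field K] [NumberField K] (θ : K), IntermediateField.adjoin ℚ {θ} = ⊤ →
      aeval θ (prodPoly a - 1) = 0 → LeopoldtAt K p} := ⟨_, rfl⟩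
  have hb0 : 0 ≤ |B| * (M : ℝ) ^ (1 / 2 + ε) :=
    mul_nonneg (abs_nonneg _) (Real.rpow_nonneg hMpos.le _)
  have key := hslc (Ix r₁ r₂) (fun k => cst (i k)) (cst_injective.comp hi) S lo N M hM hN
    (|B| * (M : ℝ) ^ (1 / 2 + ε)) hb0 (fun a l => by
      obtain ⟨g1, g2, g3, g4⟩ := hspg r₁ r₂ h3 a i hi
      obtain ⟨A, hA⟩ : ∃ A : Set (Fin 2 → ℤ), A = {P | Sep (shg (fun k => cst (i k)) a P)} :=
        ⟨_, rfl⟩
      have hline : LineFull (ff a i) (fun l => gg a i (e l)) A := by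
        intro P hP v hv
        rw [hA] at hP
        exact hfrl r₁ r₂ h3 a i hi r e heinj herange P hP v hv
      have h1 := hB (ff a i) (fun l => gg a i (e l)) (g4 r e) A hline l M hM
      have h2 : {P : Fin 2 → ℤ | (∀ i, l i ≤ P i ∧ P i < l i + M) ∧
          shg (fun k => cst (i k)) a P ∈ S} ⊆
          {P : Fin 2 → ℤ | P ∈ A ∧ (∀ i, l i ≤ P i ∧ P i < l i + M) ∧
            ExcPt p (r₁ + 2 * r₂) (spr2 (ff a i) P) (fun l => spr2 (gg a i (e l)) P)} := by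
        rintro P ⟨hP1, hP2⟩
        rw [hS] at hP2
        obtain ⟨hsep, hbad⟩ := hP2
        refine ⟨?_, hP1, ?_⟩
        · rw [hA]
          exact hsep
        · have h5 := exc_of_bad h3 p _ hsep hbad hr (g3 _) e
          have h6 : spr2 (ff a i) P = prodPoly (shg (fun k => cst (i k)) a P) - 1 := g2 P
          have h7 : (fun l => spr2 (gg a i (e l)) P) =
              fun l => fac (shg (fun k => cst (i k)) a P) (e l) := by
            funext l
            exact g1 P (e l)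
          rw [h6, h7]
          exact h5
      have hfin : {P : Fin 2 → ℤ | P ∈ A ∧ (∀ i, l i ≤ P i ∧ P i < l i + M) ∧
            ExcPt p (r₁ + 2 * r₂) (spr2 (ff a i) P)
              (fun l => spr2 (gg a i (e l)) P)}.Finite :=
        (box_finite l M).subset fun P hP => hP.2.1
      have h8 := Set.ncard_le_ncard h2 hfin
      have h9 : (({P : Fin 2 → ℤ | (∀ i, l i ≤ P i ∧ P i < l i + M) ∧
          shg (fun k => cst (i k)) a P ∈ S}.ncard : ℕ) : ℝ) ≤ (({P : Fin 2 → ℤ | P ∈ A ∧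
          (∀ i, l i ≤ P i ∧ P i < l i + M) ∧ ExcPt p (r₁ + 2 * r₂) (spr2 (ff a i) P)
              (fun l => spr2 (gg a i (e l)) P)}.ncard : ℕ) : ℝ) := by exact_mod_cast h8
      refine h9.trans (h1.trans ?_)
      exact mul_le_mul_of_nonneg_right (le_abs_self B) (Real.rpow_nonneg hMpos.le _))
  have hset : {a : Ix r₁ r₂ → ℤ | (∀ q, lo q ≤ a q ∧ a q < lo q + N q) ∧ Sep a ∧
    ¬ ∀ (K : Type) [Field K] [NumberField K] (θ : K), IntermediateField.adjoin ℚ {θ} = ⊤ →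
      aeval θ (prodPoly a - 1) = 0 → LeopoldtAt K p} =
      {a : Ix r₁ r₂ → ℤ | (∀ x, lo x ≤ a x ∧ a x < lo x + N x) ∧ a ∈ S} := by
    rw [hS]
    rfl
  rw [hset]
  obtain ⟨c, hc⟩ : ∃ c : ℝ, c = (({a : Ix r₁ r₂ → ℤ | (∀ x, lo x ≤ a x ∧ a x < lo x + N x) ∧
    a ∈ S}).ncard : ℝ) := ⟨_, rfl⟩
  rw [← hc] at key ⊢
  have hw : (0 : ℝ) < (M : ℝ) ^ (1 / 2 + ε) := Real.rpow_pos_of_pos hMpos _
  have hsplit : (M : ℝ) ^ 2 = (M : ℝ) ^ (3 / 2 - ε) * (M : ℝ) ^ (1 / 2 + ε) := by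
    rw [← Real.rpow_add hMpos]
    have : (3 / 2 - ε + (1 / 2 + ε) : ℝ) = ((2 : ℕ) : ℝ) := by
      push_cast
      ring
    rw [this, Real.rpow_natCast]
  rw [hsplit] at key
  obtain ⟨w, hw'⟩ : ∃ w : ℝ, w = (M : ℝ) ^ (1 / 2 + ε) := ⟨_, rfl⟩
  obtain ⟨P, hP⟩ : ∃ P : ℝ, P = ∏ x, (N x : ℝ) := ⟨_, rfl⟩
  rw [← hw', ← hP] at key
  rw [← hw'] at hw
  rw [← hP]
  refine le_of_mul_le_mul_right ?_ hw
  calc (M : ℝ) ^ (3 / 2 - ε) * c * w = (M : ℝ) ^ (3 / 2 - ε) * w * c := by ring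
    _ ≤ 4 * (|B| * w) * P := key
    _ = 4 * |B| * P * w := by ring

end Pool.Agent.LPW.H76
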